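import Pool.Agent.Helper87.RT.DisjOcc
import Pool.Agent.Helper23.RT.ChooseMul
import Pool.Agent.Helper37.RT.PairsOf

/-!
# Project RT, module A4: edge-disjoint cliques with a pair in a given set
-/

set_option autoImplicit false

open Finset

namespace Pool.Agent.Helper73.RT

/-- The sets of `r` vertices with a pair in `S` are at most `|S| N ^ (r - 2)`. -/
theorem conf_card {N : ℕ} (r : ℕ) (S : Finset (Sym2 (Fin N))) :
    (univ.filter fun K : Finset (Fin N) => K.card = r ∧ ∃ e ∈ pairsOf K K, e ∈ S).card ≤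
      S.card * N ^ (r - 2) := by
  classical
  have h1 : (univ.filter fun K : Finset (Fin N) => K.card = r ∧ ∃ e ∈ pairsOf K K, e ∈ S) ⊆
      (S ×ˢ powersetCard (r - 2) (univ : Finset (Fin N))).image
        fun p => p.1.toFinset ∪ p.2 := by
    intro K hK
    rw [mem_filter] at hK
    obtain ⟨-, hK, e, he, heS⟩ := hK
    obtain ⟨x, hx, y, hy, hxy, rfl⟩ := (mem_pairsOf K K e).1 he
    rw [mem_image]
    refine ⟨(s(x, y), K \ {x, y}), ?_, ?_⟩
    · rw [mem_product, mem_powersetCard]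
      refine ⟨heS, subset_univ _, ?_⟩
      rw [card_sdiff_of_subset, hK, card_pair hxy]
      intro z hz
      rw [mem_insert, mem_singleton] at hz
      rcases hz with rfl | rfl
      · exact hx
      · exact hy
    · have h2 : (s(x, y) : Sym2 (Fin N)).toFinset = {x, y} := by
        ext z
        rw [Sym2.mem_toFinset, Sym2.mem_iff, mem_insert, mem_singleton]
      change (s(x, y) : Sym2 (Fin N)).toFinset ∪ K \ {x, y} = K
      rw [h2, union_sdiff_of_subset]
      intro z hz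
      rw [mem_insert, mem_singleton] at hz
      rcases hz with rfl | rfl
      · exact hx
      · exact hy
  refine (card_le_card h1).trans (card_image_le.trans ?_)
  rw [card_product, card_powersetCard, card_univ, Fintype.card_fin]
  exact Nat.mul_le_mul_left _ (Nat.choose_le_pow N (r - 2))

/-- RT-A4. Edge-disjoint `r`-cliques (of colour `< q`) with a pair in `S`. -/
theorem conf_bound {N Q : ℕ} (hQ : 0 < Q) (q : ℕ) (hq : q ≤ Q) (r : ℕ) (hr : 2 ≤ r)
    (S : Finset (Sym2 (Fin N))) (T : ℕ) (hT : 0 < T) :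
    ({f : Sym2 (Fin N) → Fin Q | ∃ D : Finset (Finset (Fin N)),
        D.card = T ∧ EdgeDisj D ∧
        ∀ K ∈ D, (colGraph f q).IsNClique r K ∧ ∃ e ∈ pairsOf K K, e ∈ S}.ncard : ℝ)
      ≤ (Real.exp 1 * ((S.card : ℝ) * (N : ℝ) ^ (r - 2)) * ((q : ℝ) / Q) ^ (r.choose 2) / T) ^ T *
        (Q : ℝ) ^ Fintype.card (Sym2 (Fin N)) := by
  classical
  set C : Finset (Finset (Fin N)) :=
    univ.filter fun K : Finset (Fin N) => K.card = r ∧ ∃ e ∈ pairsOf K K, e ∈ S with hC
  set W0 : Finset (Fin Q) := univ.filter fun c : Fin Q => c.val < q with hW0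
  have hW : W0.card = q := by
    rw [hW0, Fin.card_filter_val_lt, min_eq_right hq]
  set p : ℝ := ((q : ℝ) / Q) ^ (r.choose 2) with hp
  have hp0 : 0 ≤ p := by positivity
  have h1 := disj_occ hQ (fun K : Finset (Fin N) => pairsOf K K) (fun _ _ => W0) C p hp0 (by
    intro K hK
    rw [hC, mem_filter] at hK
    rw [prod_const, pairsOf_self_card, hK.2.1, hW]) T
  have h2 : ({f : Sym2 (Fin N) → Fin Q | ∃ D : Finset (Finset (Fin N)),
        D.card = T ∧ EdgeDisj D ∧
        ∀ K ∈ D, (colGraph f q).IsNClique r K ∧ ∃ e ∈ pairsOf K K, e ∈ S}) ⊆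
      {f : Sym2 (Fin N) → Fin Q | ∃ D ⊆ C, D.card = T ∧
        (∀ i ∈ D, ∀ j ∈ D, i ≠ j → Disjoint (pairsOf i i) (pairsOf j j)) ∧
        ∀ i ∈ D, ∀ e ∈ pairsOf i i, f e ∈ W0} := by
    rintro f ⟨D, hDT, hdisj, hD⟩
    refine ⟨D, ?_, hDT, hdisj, ?_⟩
    · intro K hK
      rw [hC, mem_filter]
      exact ⟨mem_univ _, (hD K hK).1.card_eq, (hD K hK).2⟩
    · intro K hK e he
      obtain ⟨x, hx, y, hy, hxy, rfl⟩ := (mem_pairsOf K K e).1 he
      have h3 : (colGraph f q).Adj x y :=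
        (hD K hK).1.isClique (by exact_mod_cast hx) (by exact_mod_cast hy) hxy
      rw [hW0, mem_filter]
      exact ⟨mem_univ _, h3.2⟩
  have h3 : (({f : Sym2 (Fin N) → Fin Q | ∃ D : Finset (Finset (Fin N)),
        D.card = T ∧ EdgeDisj D ∧
        ∀ K ∈ D, (colGraph f q).IsNClique r K ∧ ∃ e ∈ pairsOf K K, e ∈ S}.ncard : ℕ) : ℝ) ≤
      (C.card.choose T : ℝ) * p ^ T * (Q : ℝ) ^ Fintype.card (Sym2 (Fin N)) := by
    refine le_trans ?_ h1
    exact_mod_cast Set.ncard_le_ncard h2 (Set.toFinite _)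
  refine h3.trans ?_
  refine mul_le_mul_of_nonneg_right ?_ (by positivity)
  refine (choose_mul_pow_le C.card T hT p hp0).trans ?_
  have h4 : (C.card : ℝ) ≤ (S.card : ℝ) * (N : ℝ) ^ (r - 2) := by
    exact_mod_cast conf_card r S
  gcongr

end Pool.Agent.Helper73.RT
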